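import Mathlib
import Pool.Agent.H706Z.Square

set_option autoImplicit false

namespace Pool.Agent.Results.MP_4cef1b_gt.SquareDSeparable

open Pool.Agent.H706Z

/-- There is a Tychonoff space that is not d-separable (so not D-separable) whose square is
D-separable. -/
theorem result : ∃ (X : Type) (_ : TopologicalSpace X), T35Space X ∧
    ¬ LittleDSeparable X ∧ ¬ BigDSeparable X ∧ BigDSeparable (X × X) := by
  obtain ⟨X, _, h1, h2, h3⟩ := Tr.main
  refine ⟨X, inferInstance, h1, h2, fun h => h2 ?_, h3⟩
  obtain ⟨F, hF, hd⟩ := h (fun _ => Set.univ) fun _ => dense_univ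
  exact ⟨F, fun n => (hF n).2, hd⟩

end Pool.Agent.Results.MP_4cef1b_gt.SquareDSeparable
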